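import Mathlib

set_option autoImplicit false

namespace Pool.Agent.H.MP_776ebc_al

open Polynomial

lemma tri_pow {R : Type*} [CommRing R] (a b w : R) (n : ℕ) :
    !![a, w; 0, b] ^ n = !![a ^ n, (∑ i ∈ Finset.range n, a ^ i * b ^ (n - 1 - i)) * w; 0, b ^ n] := by
  induction n with
  | zero => ext i j; fin_cases i <;> fin_cases j <;> simp
  | succ n ih =>
    rw [pow_succ, ih, Finset.sum_range_succ]
    have : ∑ i ∈ Finset.range n, a ^ i * b ^ (n + 1 - 1 - i) =
        (∑ i ∈ Finset.range n, a ^ i * b ^ (n - 1 - i)) * b := by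
      rw [Finset.sum_mul]
      refine Finset.sum_congr rfl fun i hi => ?_
      have := Finset.mem_range.1 hi
      rw [mul_assoc, ← pow_succ]; congr 2; omega
    rw [this]
    ext i j; fin_cases i <;> fin_cases j <;> simp [Matrix.mul_apply, Fin.sum_univ_two, pow_succ]
    ring

lemma ex_ring (K : Type) [Field K] (m : ℕ) : ∃ (R : Type) (_ : CommRing R) (_ : Algebra K R) (s t : R),
    t ^ (m + 2) = 0 ∧ ∑ i ∈ Finset.range (m + 2), s ^ i * t ^ (m + 2 - 1 - i) = 0 ∧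
      s ^ (m + 1) * t ^ m ≠ 0 := by
  let R0 := AdjoinRoot ((X : K[X]) ^ (m + 2))
  let t : R0 := AdjoinRoot.root _
  have ht : t ^ (m + 2) = 0 := by
    rw [show t = AdjoinRoot.mk _ X from rfl, ← map_pow, AdjoinRoot.mk_self]
  have ht' : t ^ (m + 1) ≠ 0 := by
    rw [show t = AdjoinRoot.mk _ X from rfl, ← map_pow, Ne, AdjoinRoot.mk_eq_zero]
    intro h
    simpa using natDegree_le_of_dvd h (pow_ne_zero _ X_ne_zero)
  have : Nontrivial R0 := nontrivial_of_ne _ _ ht'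
  let l : R0[X] := ∑ i ∈ Finset.range (m + 1), C (t ^ (m + 1 - i)) * X ^ i
  have hl : l.degree < (m + 1 : ℕ) := by
    refine (degree_sum_le _ _).trans_lt ((Finset.sup_lt_iff (WithBot.bot_lt_coe _)).2 fun i hi => ?_)
    exact (degree_C_mul_X_pow_le _ _).trans_lt (by exact_mod_cast Finset.mem_range.1 hi)
  have hm : (X ^ (m + 1) + l).Monic := monic_X_pow_add hl
  have hd : (X ^ (m + 1) + l).degree = ((m + 1 : ℕ) : WithBot ℕ) := by
    rw [degree_add_eq_left_of_degree_lt (by rwa [degree_X_pow]), degree_X_pow]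
  let R := AdjoinRoot (X ^ (m + 1) + l)
  let s : R := AdjoinRoot.root _
  let τ : R := AdjoinRoot.of _ t
  have h0 : s ^ (m + 1) + ∑ i ∈ Finset.range (m + 1), τ ^ (m + 1 - i) * s ^ i = 0 := by
    have := AdjoinRoot.mk_self (f := X ^ (m + 1) + l)
    simpa [l, map_sum] using this
  have h1 : τ ^ (m + 2) = 0 := by rw [← map_pow, ht, map_zero]
  refine ⟨R, inferInstance, inferInstance, s, τ, h1, ?_, fun h => ?_⟩
  · rw [Finset.sum_range_succ, ← h0, add_comm]
    simp [mul_comm]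
  · have h2 : (∑ i ∈ Finset.range m, τ ^ (m + 1 - i) * s ^ i) * τ ^ m = 0 := by
      rw [Finset.sum_mul]
      refine Finset.sum_eq_zero fun i hi => ?_
      have := Finset.mem_range.1 hi
      rw [mul_right_comm, ← pow_add, pow_eq_zero_of_le (by omega) h1, zero_mul]
    rw [Finset.sum_range_succ, Nat.add_sub_cancel_left] at h0
    have h3 : AdjoinRoot.mk (X ^ (m + 1) + l) (C (t ^ (m + 1)) * X ^ m) = 0 := by
      have : τ ^ (m + 1) * s ^ m = 0 := by linear_combination τ ^ m * h0 - h - h2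
      simpa using this
    rw [AdjoinRoot.mk_eq_zero] at h3
    refine hm.not_dvd_of_degree_lt (fun e => ht' ?_) ?_ h3
    · have := congrArg (coeff · m) e
      simpa only [coeff_C_mul_X_pow, if_true, coeff_zero] using this
    · rw [hd]
      exact (degree_C_mul_X_pow_le _ _).trans_lt (by exact_mod_cast Nat.lt_succ_self m)

theorem main (K : Type) [Field K] (m : ℕ) :
    FreeAlgebra.ι K (0 : Fin 2) ^ (m + 1) * FreeAlgebra.ι K (1 : Fin 2) * FreeAlgebra.ι K (0 : Fin 2) ^ m ∉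
      TwoSidedIdeal.span {z : FreeAlgebra K (Fin 2) |
        ∃ U ∈ sInf {L : Submodule K (FreeAlgebra K (Fin 2)) | FreeAlgebra.ι K 0 ∈ L ∧
          FreeAlgebra.ι K 1 ∈ L ∧ ∀ a ∈ L, ∀ b ∈ L, a * b - b * a ∈ L}, z = U ^ (m + 2)} := by
  obtain ⟨R, _, _, s, t, h1, h2, h3⟩ := ex_ring K m
  have h4 : s ^ (m + 2) = 0 := by
    have := (Commute.all s t).mul_geom_sum₂ (m + 2)
    rw [h2, h1] at this
    simpa using this.symm
  let φ : FreeAlgebra K (Fin 2) →ₐ[K] Matrix (Fin 2) (Fin 2) R :=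
    FreeAlgebra.lift K ![!![s, 0; 0, t], !![0, 1; 0, 0]]
  let L0 : Submodule K (FreeAlgebra K (Fin 2)) :=
    { carrier := {U | ∃ a w : R, φ U = !![a * s, w; 0, a * t]}
      zero_mem' := ⟨0, 0, by ext i j; fin_cases i <;> fin_cases j <;> simp⟩
      add_mem' := by
        rintro x y ⟨a, w, e⟩ ⟨a', w', e'⟩
        exact ⟨a + a', w + w', by rw [map_add, e, e']; simp [add_mul]⟩
      smul_mem' := by
        rintro c x ⟨a, w, e⟩
        exact ⟨c • a, c • w, by rw [map_smul, e]; simp⟩ }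
  have hL : L0 ∈ {L : Submodule K (FreeAlgebra K (Fin 2)) | FreeAlgebra.ι K 0 ∈ L ∧
      FreeAlgebra.ι K 1 ∈ L ∧ ∀ a ∈ L, ∀ b ∈ L, a * b - b * a ∈ L} := by
    refine ⟨⟨1, 0, by simp [φ]⟩, ⟨0, 1, by simp [φ]⟩, ?_⟩
    rintro x ⟨a, w, e⟩ y ⟨a', w', e'⟩
    refine ⟨0, a * s * w' + w * (a' * t) - (a' * s * w + w' * (a * t)), ?_⟩
    rw [map_sub, map_mul, map_mul, e, e']
    ext i j; fin_cases i <;> fin_cases j <;> simp [Matrix.mul_apply, Fin.sum_univ_two] <;> ring
  intro h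
  have hk : TwoSidedIdeal.span {z : FreeAlgebra K (Fin 2) |
        ∃ U ∈ sInf {L : Submodule K (FreeAlgebra K (Fin 2)) | FreeAlgebra.ι K 0 ∈ L ∧
          FreeAlgebra.ι K 1 ∈ L ∧ ∀ a ∈ L, ∀ b ∈ L, a * b - b * a ∈ L}, z = U ^ (m + 2)} ≤
      TwoSidedIdeal.ker φ := by
    rw [TwoSidedIdeal.span_le]
    rintro _ ⟨U, hU, rfl⟩
    obtain ⟨a, w, e⟩ := sInf_le hL hU
    have : ∑ i ∈ Finset.range (m + 2), (a * s) ^ i * (a * t) ^ (m + 2 - 1 - i) =
        a ^ (m + 1) * ∑ i ∈ Finset.range (m + 2), s ^ i * t ^ (m + 2 - 1 - i) := by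
      rw [Finset.mul_sum]
      refine Finset.sum_congr rfl fun i hi => ?_
      have := Finset.mem_range.1 hi
      rw [mul_pow, mul_pow, mul_mul_mul_comm, ← pow_add]; congr 2; omega
    refine (TwoSidedIdeal.mem_ker _).2 ?_
    rw [map_pow, e, tri_pow, this, h2, mul_pow, mul_pow, h1, h4]
    ext i j; fin_cases i <;> fin_cases j <;> simp
  have := (TwoSidedIdeal.mem_ker _).1 (hk h)
  simp only [map_mul, map_pow, φ, FreeAlgebra.lift_ι_apply, Matrix.cons_val_zero,
    Matrix.cons_val_one, tri_pow] at this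
  apply h3
  simpa [Matrix.mul_apply, Fin.sum_univ_two] using congrFun (congrFun this 0) 1

end Pool.Agent.H.MP_776ebc_al
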